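import Pool.Agent.Helper61_LT.Stmts

/-!
# SCH: the Schur test
-/

namespace Pool.Agent.LT.H47

open Matrix

/-- SCH -/
theorem sch : SchStmt := by
  intro α β _ _ A K hr hc x
  have h1 : ∀ a, ((cst A *ᵥ x) a) ^ 2 ≤ K * ∑ b, |(A a b : ℝ)| * x b ^ 2 := by
    intro a
    have h2 : (∑ b, (A a b : ℝ) * x b) ^ 2 ≤
        (∑ b, |(A a b : ℝ)|) * ∑ b, |(A a b : ℝ)| * x b ^ 2 := by
      apply Finset.sum_sq_le_sum_mul_sum_of_sq_eq_mul
      · intro b _
        exact abs_nonneg _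
      · intro b _
        exact mul_nonneg (abs_nonneg _) (sq_nonneg _)
      · intro b _
        have h3 : |(A a b : ℝ)| * |(A a b : ℝ)| = (A a b : ℝ) * (A a b : ℝ) := abs_mul_abs_self _
        calc ((A a b : ℝ) * x b) ^ 2 = ((A a b : ℝ) * (A a b : ℝ)) * x b ^ 2 := by ring
          _ = (|(A a b : ℝ)| * |(A a b : ℝ)|) * x b ^ 2 := by rw [h3]
          _ = _ := by ring
    have h4 : (cst A *ᵥ x) a = ∑ b, (A a b : ℝ) * x b := rfl
    rw [h4]
    refine h2.trans ?_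
    exact mul_le_mul_of_nonneg_right (hr a)
      (Finset.sum_nonneg fun b _ => mul_nonneg (abs_nonneg _) (sq_nonneg _))
  have e1 : (cst A *ᵥ x) ⬝ᵥ (cst A *ᵥ x) = ∑ a, ((cst A *ᵥ x) a) ^ 2 :=
    Finset.sum_congr rfl fun a _ => by ring
  have e2 : x ⬝ᵥ x = ∑ b, x b ^ 2 := Finset.sum_congr rfl fun b _ => by ring
  rw [e1, e2]
  rcases isEmpty_or_nonempty α with hα | ⟨⟨a0⟩⟩
  · rw [Finset.univ_eq_empty, Finset.sum_empty]
    exact mul_nonneg (sq_nonneg K) (Finset.sum_nonneg fun b _ => sq_nonneg _)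
  have hK : 0 ≤ K := (Finset.sum_nonneg fun b _ => abs_nonneg _).trans (hr a0)
  calc ∑ a, ((cst A *ᵥ x) a) ^ 2 ≤ ∑ a, K * ∑ b, |(A a b : ℝ)| * x b ^ 2 :=
        Finset.sum_le_sum fun a _ => h1 a
    _ = K * ∑ b, (∑ a, |(A a b : ℝ)|) * x b ^ 2 := by
        rw [← Finset.mul_sum, Finset.sum_comm]
        congr 1
        refine Finset.sum_congr rfl fun b _ => ?_
        rw [Finset.sum_mul]
    _ ≤ K * ∑ b, K * x b ^ 2 := by
        apply mul_le_mul_of_nonneg_left _ hK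
        exact Finset.sum_le_sum fun b _ => mul_le_mul_of_nonneg_right (hc b) (sq_nonneg _)
    _ = K ^ 2 * ∑ b, x b ^ 2 := by
        rw [← Finset.mul_sum]
        ring

end Pool.Agent.LT.H47
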